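import Pool.Agent.Lib.Helper86.Valdivia
import Pool.Agent.Lib.Helper86.OmegaTwo
import Pool.Agent.Lib.Helper86.ScatteredRank

set_option autoImplicit false

open Set Topology

/-!
# Scattered Valdivia compacta contain no copy of `[0, ω₂]`

A scattered Valdivia compact space (in particular a scattered semi-Eberlein compact space) has no
subspace homeomorphic to the ordinal interval `[0, ω₂]`.
-/

namespace Pool.Agent.Results.MP_206312_gt.ScatteredValdivia

universe u v w

/-- A topological space is scattered if every nonempty subspace has an isolated point. -/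
def IsScattered (X : Type u) [TopologicalSpace X] : Prop :=
  ∀ A : Set X, A.Nonempty → ∃ x ∈ A, ∃ U : Set X, IsOpen U ∧ U ∩ A = {x}

/-- The set `c₀(Γ)`. -/
def cZero (Γ : Type v) : Set (Γ → ℝ) := {x | ∀ ε : ℝ, 0 < ε → {γ : Γ | ε < |x γ|}.Finite}

/-- The set of the vectors with countable support. -/
def countableSupport (Γ : Type v) : Set (Γ → ℝ) := {x | {γ : Γ | x γ ≠ 0}.Countable}

/-- Semi-Eberlein compact spaces: `K` compact Hausdorff with a homeomorphic embedding `h` in a cube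
`[0,1]^Γ` such that `h(K) ∩ c₀(Γ)` is dense in `h(K)`. -/
def IsSemiEberlein (K : Type u) [TopologicalSpace K] : Prop :=
  CompactSpace K ∧ T2Space K ∧ ∃ (Γ : Type v) (h : K → Γ → ℝ), IsEmbedding h ∧
    (∀ x γ, h x γ ∈ Icc (0 : ℝ) 1) ∧ range h ⊆ closure (range h ∩ cZero Γ)

/-- Valdivia compact spaces: the same with the vectors of countable support. -/
def IsValdivia (K : Type u) [TopologicalSpace K] : Prop :=
  CompactSpace K ∧ T2Space K ∧ ∃ (Γ : Type v) (h : K → Γ → ℝ), IsEmbedding h ∧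
    (∀ x γ, h x γ ∈ Icc (0 : ℝ) 1) ∧ range h ⊆ closure (range h ∩ countableSupport Γ)

theorem dense_of_range {K : Type u} [TopologicalSpace K] {Γ : Type v} {h : K → Γ → ℝ}
    (hh : IsEmbedding h) (C : Set (Γ → ℝ)) (hC : range h ⊆ closure (range h ∩ C)) :
    Dense {x : K | h x ∈ C} := by
  have e1 : range h ∩ C = h '' {x : K | h x ∈ C} := by
    ext y
    constructor
    · rintro ⟨⟨x, rfl⟩, hx⟩
      exact ⟨x, hx, rfl⟩
    · rintro ⟨x, hx, rfl⟩
      exact ⟨⟨x, rfl⟩, hx⟩
  intro x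
  rw [hh.isInducing.closure_eq_preimage_closure_image, ← e1]
  exact hC ⟨x, rfl⟩

theorem cZero_subset (Γ : Type v) : cZero Γ ⊆ countableSupport Γ := by
  intro x hx
  have hsub : {γ : Γ | x γ ≠ 0} ⊆ ⋃ n : ℕ, {γ : Γ | 1 / ((n : ℝ) + 1) < |x γ|} := by
    intro γ hγ
    obtain ⟨n, hn⟩ := exists_nat_one_div_lt (abs_pos.mpr hγ)
    exact Set.mem_iUnion.mpr ⟨n, hn⟩
  refine Set.Countable.mono hsub (Set.countable_iUnion (fun n => ?_))
  exact (hx _ (by positivity)).countable

/-- `[0, ω₂]` of the universe `w` is homeomorphic to `[0, ω₂]` of the universe `max v w`. -/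
theorem exists_homeo : ∃ _f : Set.Iic (Cardinal.aleph.{max w v} 2).ord ≃ₜ
    Set.Iic (Cardinal.aleph.{w} 2).ord, True := by
  have hl : Ordinal.lift.{v, w} (Cardinal.aleph.{w} 2).ord = (Cardinal.aleph.{max w v} 2).ord := by
    rw [Cardinal.lift_ord, Cardinal.lift_aleph]; norm_num
  let F : Set.Iic (Cardinal.aleph.{w} 2).ord → Set.Iic (Cardinal.aleph.{max w v} 2).ord :=
    fun a => ⟨Ordinal.lift.{v, w} a.1, by
      have := Ordinal.lift_le.{v, w}.mpr a.2
      rwa [hl] at this⟩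
  have hF : ∀ a b, F a ≤ F b ↔ a ≤ b := fun a b => by
    show Ordinal.lift.{v, w} a.1 ≤ Ordinal.lift.{v, w} b.1 ↔ a.1 ≤ b.1
    exact Ordinal.lift_le
  have hsurj : Function.Surjective F := by
    intro b
    have hb : b.1 ≤ Ordinal.lift.{v, w} (Cardinal.aleph.{w} 2).ord := by
      rw [hl]; exact b.2
    obtain ⟨a, ha⟩ := Ordinal.mem_range_lift_of_le hb
    refine ⟨⟨a, ?_⟩, Subtype.ext ha⟩
    have : Ordinal.lift.{v, w} a ≤ Ordinal.lift.{v, w} (Cardinal.aleph.{w} 2).ord := by
      rw [ha]; exact hb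
    exact Ordinal.lift_le.mp this
  have hinj : Function.Injective F := fun a b h => le_antisymm ((hF a b).mp h.le) ((hF b a).mp h.ge)
  let G : Set.Iic (Cardinal.aleph.{w} 2).ord ≃o Set.Iic (Cardinal.aleph.{max w v} 2).ord :=
    { toEquiv := Equiv.ofBijective F ⟨hinj, hsurj⟩, map_rel_iff' := fun {a b} => hF a b }
  exact ⟨G.symm.toHomeomorph, trivial⟩

/-- No scattered Valdivia (in particular no scattered semi-Eberlein) compact space contains a copy of
the ordinal interval `[0, ω₂]`. -/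
theorem result (K : Type u) [TopologicalSpace K] (hs : IsScattered K)
    (hK : IsSemiEberlein.{u, v} K ∨ IsValdivia.{u, v} K) :
    ¬ ∃ f : Set.Iic (Cardinal.aleph.{w} 2).ord → K, IsEmbedding f := by
  rintro ⟨f, hf⟩
  obtain ⟨hcomp, Γ, h, hh, hd⟩ : CompactSpace K ∧ ∃ (Γ : Type v) (h : K → Γ → ℝ), IsEmbedding h ∧
      Dense {x : K | {γ : Γ | h x γ ≠ 0}.Countable} := by
    rcases hK with ⟨h1, _, Γ, h, hh, _, hd⟩ | ⟨h1, _, Γ, h, hh, _, hd⟩
    · exact ⟨h1, Γ, h, hh, (dense_of_range hh _ hd).mono (fun x hx => cZero_subset Γ hx)⟩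
    · exact ⟨h1, Γ, h, hh, dense_of_range hh _ hd⟩
  -- lift the index set and the ordinals to a common universe
  obtain ⟨g, -⟩ := exists_homeo.{v, w}
  have hfg : IsEmbedding (f ∘ g) := hf.comp g.isEmbedding
  let e : K → ULift.{w} Γ → ℝ := fun x γ => h x γ.down
  have he : IsEmbedding e := by
    have : IsEmbedding (fun (y : Γ → ℝ) (γ : ULift.{w} Γ) => y γ.down) :=
      (Homeomorph.piCongrLeft (Y := fun _ : Γ => ℝ) (Equiv.ulift.{w, v} (α := Γ))).symm.isEmbedding
    exact this.comp hh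
  have hde : Dense {x : K | {γ : ULift.{w} Γ | e x γ ≠ 0}.Countable} := by
    refine hd.mono (fun x hx => ?_)
    exact Set.Countable.preimage_of_injOn hx (Equiv.ulift.{w, v} (α := Γ)).injective.injOn
  obtain ⟨α, hα⟩ := Pool.Agent.Lib.Helper86.exists_big_support.{max v w} (fun β => e (f (g β)))
    (he.continuous.comp hfg.continuous) (he.injective.comp hfg.injective)
  obtain ⟨rk, U, hU, hxU, hrk⟩ := Pool.Agent.Lib.Helper86.exists_rank hs
  obtain ⟨x, c, hx⟩ := Pool.Agent.Lib.Helper86.exists_seq e he hde (f (g α)) _ hα U hU hxU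
  have hne : ∀ n, x (n + 1) ≠ x n := by
    intro n h
    obtain ⟨h1, -, h3, h4⟩ := hx n
    rw [h, h3] at h4
    exact h1 h4.symm
  have hdesc : ∀ n, rk (x (n + 1)) < rk (x n) := fun n => hrk _ _ (hx n).2.1 (hne n)
  exact (RelEmbedding.natGT (r := (· < ·)) (fun n => rk (x n)) hdesc).not_wellFounded
    Ordinal.lt_wf

end Pool.Agent.Results.MP_206312_gt.ScatteredValdivia
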